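import Mathlib
import Pool.Agent.Q57.LM.Asy

/-! Power series with a radius of convergence larger than a given one. -/

open PowerSeries

set_option linter.unusedSectionVars false

namespace Q57.LS

open scoped Nat
open Q57.LM

/-- coefficients are `O(B ^ k)` for some `B < R` -/
def Geo (R : ℝ) (f : PS) : Prop :=
  ∃ B C : ℝ, 0 < B ∧ B < R ∧ 0 ≤ C ∧ ∀ k : ℕ, ‖coeff k f‖ ≤ C * B ^ k

theorem Geo.mono_common {R : ℝ} {f g : PS} (hf : Geo R f) (hg : Geo R g) :
    ∃ B C : ℝ, 0 < B ∧ B < R ∧ 0 ≤ C ∧ (∀ k : ℕ, ‖coeff k f‖ ≤ C * B ^ k) ∧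
      ∀ k : ℕ, ‖coeff k g‖ ≤ C * B ^ k := by
  obtain ⟨B1, C1, h1, h2, h3, h4⟩ := hf
  obtain ⟨B2, C2, g1, g2, g3, g4⟩ := hg
  refine ⟨max B1 B2, max C1 C2, lt_max_of_lt_left h1, max_lt h2 g2, le_max_of_le_left h3, ?_, ?_⟩
  · intro k
    refine (h4 k).trans ?_
    gcongr
    · exact le_max_left _ _
    · exact le_max_left _ _
  · intro k
    refine (g4 k).trans ?_
    gcongr
    · exact le_max_right _ _
    · exact le_max_right _ _

theorem Geo.add {R : ℝ} {f g : PS} (hf : Geo R f) (hg : Geo R g) : Geo R (f + g) := by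
  obtain ⟨B, C, h1, h2, h3, h4, h5⟩ := hf.mono_common hg
  refine ⟨B, 2 * C, h1, h2, by linarith, fun k => ?_⟩
  rw [map_add]
  calc ‖coeff k f + coeff k g‖ ≤ ‖coeff k f‖ + ‖coeff k g‖ := norm_add_le _ _
    _ ≤ C * B ^ k + C * B ^ k := add_le_add (h4 k) (h5 k)
    _ = _ := by ring

theorem Geo.neg {R : ℝ} {f : PS} (hf : Geo R f) : Geo R (-f) := by
  obtain ⟨B, C, h1, h2, h3, h4⟩ := hf
  exact ⟨B, C, h1, h2, h3, fun k => by rw [map_neg, norm_neg]; exact h4 k⟩

theorem Geo.mul {R : ℝ} {f g : PS} (hf : Geo R f) (hg : Geo R g) : Geo R (f * g) := by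
  obtain ⟨B, C, h1, h2, h3, h4, h5⟩ := hf.mono_common hg
  obtain ⟨K, hK0, hK⟩ := slack B ((B + R) / 2) h1 (by linarith)
  refine ⟨(B + R) / 2, C * C * K, by linarith, by linarith, by positivity, fun k => ?_⟩
  rw [coeff_mul]
  calc ‖∑ x ∈ Finset.HasAntidiagonal.antidiagonal k, coeff x.1 f * coeff x.2 g‖
      ≤ ∑ x ∈ Finset.HasAntidiagonal.antidiagonal k, C * C * B ^ k := by
        refine norm_sum_le_of_le _ fun x hx => ?_
        rw [Finset.HasAntidiagonal.mem_antidiagonal] at hx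
        rw [norm_mul]
        calc ‖coeff x.1 f‖ * ‖coeff x.2 g‖
            ≤ (C * B ^ x.1) * (C * B ^ x.2) :=
              mul_le_mul (h4 _) (h5 _) (norm_nonneg _) (by positivity)
          _ = C * C * B ^ k := by rw [← hx, pow_add]; ring
    _ = C * C * (((k : ℝ) + 1) * B ^ k) := by
        rw [Finset.sum_const, Finset.Nat.card_antidiagonal, nsmul_eq_mul]
        push_cast
        ring
    _ ≤ C * C * (K * ((B + R) / 2) ^ k) := mul_le_mul_of_nonneg_left (hK k) (by positivity)
    _ = C * C * K * ((B + R) / 2) ^ k := by ring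

theorem Geo.of_ent {R : ℝ} (hR : 0 < R) {f : PS} (hf : Ent f) : Geo R f := by
  have h1 := hf (2 / R) (by positivity)
  set T := ∑' i, ‖coeff i f‖ * (2 / R) ^ i with hT
  refine ⟨R / 2, T, by positivity, by linarith, tsum_nonneg fun i => by positivity, fun k => ?_⟩
  have h2 : ‖coeff k f‖ * (2 / R) ^ k ≤ T := h1.le_tsum k (fun i _ => by positivity)
  have h3 : (2 / R) ^ k * (R / 2) ^ k = 1 := by
    rw [← mul_pow]
    have : 2 / R * (R / 2) = 1 := by field_simp
    rw [this, one_pow]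
  calc ‖coeff k f‖ = (‖coeff k f‖ * (2 / R) ^ k) * (R / 2) ^ k := by
        rw [mul_assoc, h3, mul_one]
    _ ≤ T * (R / 2) ^ k := by gcongr

/-- the subring -/
def Gm (R : ℝ) (hR : 0 < R) : Subring PS where
  carrier := {f | Geo R f}
  mul_mem' := fun hf hg => Geo.mul hf hg
  one_mem' := Geo.of_ent hR (ent_of_finite 1 1 fun k hk => by rw [coeff_one, if_neg (by omega)])
  add_mem' := fun hf hg => Geo.add hf hg
  zero_mem' := Geo.of_ent hR (ent_of_finite 0 0 fun k _ => by simp)
  neg_mem' := fun hf => Geo.neg hf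

theorem Geo.mono {R R' : ℝ} (h : R ≤ R') {f : PS} (hf : Geo R f) : Geo R' f := by
  obtain ⟨B, C, h1, h2, h3, h4⟩ := hf
  exact ⟨B, C, h1, lt_of_lt_of_le h2 h, h3, h4⟩

theorem Geo.summable {R : ℝ} {f : PS} (hf : Geo R f) (z : ℂ) (hz : ‖z‖ * R ≤ 1) :
    Summable fun i => ‖coeff i f * z ^ i‖ := by
  obtain ⟨B, C, h1, h2, h3, h4⟩ := hf
  by_cases hz0 : ‖z‖ = 0
  · have : z = 0 := norm_eq_zero.mp hz0
    refine summable_of_ne_finset_zero (s := {0}) fun k hk => ?_
    have hk' : k ≠ 0 := by simpa using hk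
    rw [this, zero_pow hk', mul_zero, norm_zero]
  · have hzp : 0 < ‖z‖ := lt_of_le_of_ne (norm_nonneg z) (Ne.symm hz0)
    have hlt : B * ‖z‖ < 1 := by
      calc B * ‖z‖ < R * ‖z‖ := by gcongr
        _ ≤ 1 := by rw [mul_comm]; exact hz
    refine Summable.of_nonneg_of_le (fun i => norm_nonneg _) (fun i => ?_)
      ((summable_geometric_of_lt_one (by positivity) hlt).mul_left C)
    rw [norm_mul, norm_pow, mul_pow]
    calc ‖coeff i f‖ * ‖z‖ ^ i ≤ (C * B ^ i) * ‖z‖ ^ i := by gcongr; exact h4 i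
      _ = _ := by ring

theorem ev_mul' {f g : PS} {z : ℂ} (hf : Summable fun i => ‖coeff i f * z ^ i‖)
    (hg : Summable fun i => ‖coeff i g * z ^ i‖) : ev z (f * g) = ev z f * ev z g := by
  unfold ev
  rw [tsum_mul_tsum_eq_tsum_sum_antidiagonal_of_summable_norm hf hg]
  exact tsum_congr fun n => coeff_mul_pow f g z n

theorem ev_add' {f g : PS} {z : ℂ} (hf : Summable fun i => ‖coeff i f * z ^ i‖)
    (hg : Summable fun i => ‖coeff i g * z ^ i‖) : ev z (f + g) = ev z f + ev z g := by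
  unfold ev
  rw [← (hf.of_norm).tsum_add (hg.of_norm)]
  exact tsum_congr fun n => by rw [map_add]; ring

theorem ev_one (z : ℂ) : ev z 1 = 1 := by
  have := ev_C z 1
  rwa [map_one] at this

/-- the linear factor -/
noncomputable def lf (β : ℂ) : PS := 1 - C β * X

/-- the geometric series -/
noncomputable def ga (β : ℂ) : PS := PowerSeries.mk fun k => β ^ k

theorem lf_mul_ga (β : ℂ) : lf β * ga β = 1 := by
  ext k
  have e : lf β * ga β = ga β - C β * (X * ga β) := by unfold lf; ring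
  rw [e, map_sub, coeff_C_mul]
  cases k with
  | zero => simp [ga]
  | succ k =>
    rw [coeff_succ_X_mul, ga, coeff_mk, coeff_mk, coeff_one, if_neg (by omega)]
    ring

theorem ent_lf (β : ℂ) : Ent (lf β) := by
  refine ent_of_finite _ 2 fun k hk => ?_
  unfold lf
  rw [map_sub, coeff_C_mul, coeff_one, if_neg (by omega), coeff_X, if_neg (by omega)]
  simp

theorem ev_lf (β z : ℂ) (h : β * z = 1) : ev z (lf β) = 0 := by
  have h1 : lf β = 1 + C (-β) * X := by
    unfold lf
    rw [map_neg]; ring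
  have e1 : Ent (1 : PS) := ent_of_finite 1 1 fun k hk => by rw [coeff_one, if_neg (by omega)]
  have e2 : Ent (C (-β) * X : PS) := (ent_C _).mul ent_X
  rw [h1, ev_add' (e1.summable z) (e2.summable z), ev_one, ev_mul (ent_C _) ent_X, ev_C, ev_X]
  linear_combination -h

/-- division by the linear factor -/
theorem div_lf (R : ℝ) (hR : 0 < R) (β z : ℂ) (hβ : ‖β‖ = R) (hz : β * z = 1) (g : PS)
    (hg : Geo R g) : ∃ g' : PS, Geo R g' ∧ g = C (ev z g) + lf β * g' := by
  have hzn : ‖z‖ = 1 / R := by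
    have := congrArg norm hz
    rw [norm_mul, hβ, norm_one] at this
    field_simp
    linarith
  have hsum := (hg.summable z (by rw [hzn]; field_simp; exact le_rfl)).of_norm
  set c := ev z g with hc
  set g' : PS := PowerSeries.mk fun k =>
    -(β ^ k * (c - ∑ i ∈ Finset.range (k + 1), coeff i g * z ^ i)) with hg'
  refine ⟨g', ?_, ?_⟩
  · obtain ⟨B, C, h1, h2, h3, h4⟩ := hg
    have hr1 : B / R < 1 := (div_lt_one hR).mpr h2
    refine ⟨B, C * (B / R) / (1 - B / R), h1, h2, ?_, fun k => ?_⟩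
    · exact div_nonneg (by positivity) (by linarith)
    · have h5 := norm_sub_le_of_geometric_bound_of_hasSum (r := B / R) (C := C)
        (f := fun i => coeff i g * z ^ i) hr1 (fun i => by
          rw [norm_mul, norm_pow, hzn]
          calc ‖coeff i g‖ * (1 / R) ^ i ≤ (C * B ^ i) * (1 / R) ^ i := by gcongr; exact h4 i
            _ = C * (B / R) ^ i := by rw [div_pow, div_pow, one_pow]; ring) hsum.hasSum (k + 1)
      rw [hg', coeff_mk, norm_neg, norm_mul, norm_pow, hβ, norm_sub_rev]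
      calc R ^ k * ‖∑ i ∈ Finset.range (k + 1), coeff i g * z ^ i - c‖
          ≤ R ^ k * (C * (B / R) ^ (k + 1) / (1 - B / R)) := by
            refine mul_le_mul_of_nonneg_left h5 (by positivity)
        _ = C * (B / R) / (1 - B / R) * B ^ k := by
            rw [pow_succ, div_pow]
            field_simp
  · ext k
    have e : lf β * g' = g' - C β * (X * g') := by unfold lf; ring
    rw [e, map_add, map_sub, coeff_C_mul]
    cases k with
    | zero =>
      rw [coeff_zero_X_mul, hg', coeff_mk, coeff_zero_C]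
      simp
    | succ k =>
      rw [coeff_succ_X_mul, hg', coeff_mk, coeff_mk, coeff_C, if_neg (by omega),
        Finset.sum_range_succ (fun i => coeff i g * z ^ i) (k + 1)]
      have h6 : β ^ (k + 1) * z ^ (k + 1) = 1 := by rw [← mul_pow, hz, one_pow]
      linear_combination (-(coeff (k + 1) g)) * h6

theorem div_lf_iter (R : ℝ) (hR : 0 < R) (β z : ℂ) (hβ : ‖β‖ = R) (hz : β * z = 1) (m : ℕ) :
    ∀ g : PS, Geo R g → ∃ (c : ℕ → ℂ) (g' : PS), Geo R g' ∧ c 0 = ev z g ∧
      g = (∑ i ∈ Finset.range (m + 1), C (c i) * lf β ^ i) + lf β ^ (m + 1) * g' := by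
  induction m with
  | zero =>
    intro g hg
    obtain ⟨g', h1, h2⟩ := div_lf R hR β z hβ hz g hg
    refine ⟨fun _ => ev z g, g', h1, rfl, ?_⟩
    rw [Finset.sum_range_one, pow_zero, mul_one, zero_add, pow_one]
    exact h2
  | succ m ih =>
    intro g hg
    obtain ⟨g', h1, h2⟩ := div_lf R hR β z hβ hz g hg
    obtain ⟨c, g'', h3, _, h5⟩ := ih g' h1
    refine ⟨fun i => if i = 0 then ev z g else c (i - 1), g'', h3, by simp, ?_⟩
    rw [Finset.sum_range_succ']
    have e : ∀ i, (if i + 1 = 0 then ev z g else c (i + 1 - 1)) = c i := fun i => by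
      rw [if_neg (by omega), Nat.add_sub_cancel]
    simp only [e, if_true, pow_zero, mul_one]
    have e2 : ∑ i ∈ Finset.range (m + 1), C (c i) * lf β ^ (i + 1)
        = lf β * ∑ i ∈ Finset.range (m + 1), C (c i) * lf β ^ i := by
      rw [Finset.mul_sum]
      exact Finset.sum_congr rfl fun i _ => by ring
    rw [e2]
    calc g = C (ev z g) + lf β * g' := h2
      _ = C (ev z g) + lf β * ((∑ i ∈ Finset.range (m + 1), C (c i) * lf β ^ i)
            + lf β ^ (m + 1) * g'') := by rw [← h5]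
      _ = _ := by ring

end Q57.LS
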