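import Mathlib
import Pool.Agent.Q57.LS.Hol
import Pool.Agent.Q57.LM.Core

/-! The Gaussian transform of `∏ sinh(y/p) / sinh y ^ (n-2)`. -/

open PowerSeries

set_option linter.unusedSectionVars false

namespace Q57.LS

open scoped Nat
open Q57.LM

/-- The multiplicities of the singular fibres of a Seifert fibred integral homology sphere: at least
three pairwise coprime integers `≥ 2`. -/
structure Fib where
  S : Finset ℕ
  card : 3 ≤ S.card
  two : ∀ p ∈ S, 2 ≤ p
  cop : ∀ p ∈ S, ∀ q ∈ S, p ≠ q → Nat.Coprime p q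

@[ext] theorem Fib.ext' {t u : Fib} (h : t.S = u.S) : t = u := by
  cases t; cases u; simp_all

/-- the product of the multiplicities -/
def Fib.P (t : Fib) : ℕ := ∏ p ∈ t.S, p

theorem Fib.P_pos (t : Fib) : 0 < t.P :=
  Finset.prod_pos fun p hp => by have := t.two p hp; omega

/-- the numerator `(z / P) ∏ s(z/p²)` -/
noncomputable def Num (t : Fib) : PS := C (1 / (t.P : ℂ)) * X * ∏ p ∈ t.S, sc p

/-- `F(z)`, with `F(y²) = ∏ sinh(y/p) / sinh y ^ (n-2)` -/
noncomputable def F (t : Fib) : PS := Num t * s⁻¹ ^ (t.S.card - 2)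

/-- the Gaussian transform: `z ^ k` goes to `(2k-1)!! (b X) ^ k` -/
noncomputable def Gau (b : ℂ) (f : PS) : PS :=
  PowerSeries.mk fun k => coeff k f * ((mu k : ℝ) : ℂ) * b ^ k

/-- the transform of `F`: `y ^ (2k)` goes to `(2k-1)!! (P X / 2) ^ k` -/
noncomputable def G (t : Fib) : PS := Gau ((t.P : ℂ) / 2) (F t)

theorem ent_prod (T : Finset ℕ) : Ent (∏ p ∈ T, sc p) := by
  classical
  induction T using Finset.induction_on with
  | empty =>
    rw [Finset.prod_empty]
    exact ent_of_finite 1 1 fun k hk => by rw [coeff_one, if_neg (by omega)]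
  | insert a T ha ih =>
    rw [Finset.prod_insert ha]
    exact (ent_sc a).mul ih

theorem ev_prod (T : Finset ℕ) (z : ℂ) : ev z (∏ p ∈ T, sc p) = ∏ p ∈ T, ev z (sc p) := by
  classical
  induction T using Finset.induction_on with
  | empty => rw [Finset.prod_empty, Finset.prod_empty, ev_one]
  | insert a T ha ih =>
    rw [Finset.prod_insert ha, Finset.prod_insert ha, ev_mul (ent_sc a) (ent_prod T), ih]

theorem ent_Num (t : Fib) : Ent (Num t) := ((ent_C _).mul ent_X).mul (ent_prod _)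

theorem ev_Num (t : Fib) (z : ℂ) :
    ev z (Num t) = (1 / (t.P : ℂ)) * z * ∏ p ∈ t.S, ev z (sc p) := by
  unfold Num
  rw [ev_mul ((ent_C _).mul ent_X) (ent_prod _), ev_mul (ent_C _) ent_X, ev_C, ev_X, ev_prod]

/-- the singularity parameter -/
noncomputable def bet : ℂ := (((-(1 / Real.pi ^ 2) : ℝ)) : ℂ)

/-- the first pole -/
noncomputable def z1 : ℂ := (((-(Real.pi ^ 2) : ℝ)) : ℂ)

theorem bet_z1 : bet * z1 = 1 := by
  unfold bet z1
  rw [← Complex.ofReal_mul]
  have h : (0 : ℝ) < Real.pi ^ 2 := by positivity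
  have : -(1 / Real.pi ^ 2) * -(Real.pi ^ 2) = 1 := by field_simp
  rw [this]; simp

theorem norm_bet : ‖bet‖ = 1 / Real.pi ^ 2 := by
  unfold bet
  rw [Complex.norm_real, norm_neg, Real.norm_of_nonneg (by positivity)]

theorem norm_z1 : ‖z1‖ * (1 / Real.pi ^ 2) = 1 := by
  unfold z1
  rw [Complex.norm_real, norm_neg, Real.norm_of_nonneg (by positivity)]
  have h : (0 : ℝ) < Real.pi ^ 2 := by positivity
  field_simp

theorem R0_pos : (0 : ℝ) < 1 / Real.pi ^ 2 := by positivity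

/-- the regular part of `1 / s` -/
theorem geo_w1 : Geo (1 / Real.pi ^ 2) (s⁻¹ - C 2 * ga bet) := by
  obtain ⟨K, hK0, hK⟩ := wc_asymp
  refine ⟨1 / (4 * Real.pi ^ 2), K, by positivity, ?_, hK0, fun k => ?_⟩
  · have h : (0 : ℝ) < Real.pi ^ 2 := by positivity
    exact one_div_lt_one_div_of_lt h (by linarith)
  · rw [map_sub, coeff_C_mul, coeff_s_inv, ga, coeff_mk, bet]
    have h6 : ((wc k : ℝ) : ℂ) - 2 * (((-(1 / Real.pi ^ 2) : ℝ)) : ℂ) ^ k
        = ((wc k - 2 * (-(1 / Real.pi ^ 2)) ^ k : ℝ) : ℂ) := by push_cast; ring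
    rw [h6, Complex.norm_real, Real.norm_eq_abs]
    exact hK k

theorem geo_s_inv (R : ℝ) (h : 1 / Real.pi ^ 2 < R) : Geo R s⁻¹ := by
  have h1 : Geo R (C 2 * ga bet) := by
    refine ⟨1 / Real.pi ^ 2, 2, by positivity, h, by norm_num, fun k => ?_⟩
    rw [coeff_C_mul, ga, coeff_mk, norm_mul, norm_pow, norm_bet, Complex.norm_ofNat]
  have h2 := (geo_w1.mono h.le).add h1
  have e : s⁻¹ - C 2 * ga bet + C 2 * ga bet = s⁻¹ := by ring
  rwa [e] at h2

/-- `v = (1 - β z) / s` is regular at the first pole, with value `2` -/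
theorem geo_v : Geo (1 / Real.pi ^ 2) (lf bet * s⁻¹) ∧ ev z1 (lf bet * s⁻¹) = 2 := by
  have hR := R0_pos
  have e : lf bet * s⁻¹ = C 2 + lf bet * (s⁻¹ - C 2 * ga bet) := by
    have := lf_mul_ga bet
    linear_combination (C 2 : PS) * this
  have hl : Geo (1 / Real.pi ^ 2) (lf bet) := Geo.of_ent hR (ent_lf _)
  have hc : Geo (1 / Real.pi ^ 2) (C 2 : PS) := Geo.of_ent hR (ent_C _)
  have hz := norm_z1
  rw [e]
  refine ⟨hc.add (hl.mul geo_w1), ?_⟩
  rw [ev_add' (hc.summable z1 hz.le) ((hl.mul geo_w1).summable z1 hz.le), ev_C,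
    ev_mul' (hl.summable z1 hz.le) (geo_w1.summable z1 hz.le), ev_lf bet z1 bet_z1]
  ring

theorem Geo.pow {R : ℝ} (hR : 0 < R) {f : PS} (hf : Geo R f) (m : ℕ) : Geo R (f ^ m) :=
  (Gm R hR).pow_mem (x := f) hf m

theorem ev_pow' {R : ℝ} (hR : 0 < R) {f : PS} (hf : Geo R f) (z : ℂ) (hz : ‖z‖ * R ≤ 1) (m : ℕ) :
    ev z (f ^ m) = ev z f ^ m := by
  induction m with
  | zero => rw [pow_zero, pow_zero, ev_one]
  | succ m ih =>
    rw [pow_succ, pow_succ, ev_mul' ((hf.pow hR m).summable z hz) (hf.summable z hz), ih]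

/-- the residue is not zero -/
theorem ev_Num_ne (t : Fib) : ev z1 (Num t) ≠ 0 := by
  have hpi := Real.pi_ne_zero
  rw [ev_Num]
  have hP : (t.P : ℂ) ≠ 0 := Nat.cast_ne_zero.mpr t.P_pos.ne'
  have hz : z1 ≠ 0 := by
    unfold z1
    exact_mod_cast neg_ne_zero.mpr (pow_ne_zero 2 hpi)
  refine mul_ne_zero (mul_ne_zero (one_div_ne_zero hP) hz) (Finset.prod_ne_zero_iff.mpr ?_)
  intro p hp
  have h2 := t.two p hp
  unfold z1
  rw [ev_sc p (by omega) _ hpi]
  have : (p : ℝ) ≠ 0 := Nat.cast_ne_zero.mpr (by omega)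
  exact_mod_cast div_ne_zero (sin_pi_div_ne p h2) (div_ne_zero hpi this)

/-- the partial fraction of `F` at the first pole -/
theorem F_dec (t : Fib) : ∃ (c : ℕ → ℂ) (g : PS), Geo (1 / Real.pi ^ 2) g ∧ c 0 ≠ 0 ∧
    F t = (∑ i ∈ Finset.range (t.S.card - 2), C (c i) * ga bet ^ (t.S.card - 2 - i)) + g := by
  obtain ⟨hv, hv2⟩ := geo_v
  obtain ⟨m, hm⟩ : ∃ m, t.S.card - 2 = m + 1 := ⟨t.S.card - 3, by have := t.card; omega⟩
  have hR := R0_pos
  have hN : Geo (1 / Real.pi ^ 2) (Num t) := Geo.of_ent hR (ent_Num t)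
  have hg : Geo (1 / Real.pi ^ 2) (Num t * (lf bet * s⁻¹) ^ (m + 1)) := hN.mul (hv.pow hR _)
  obtain ⟨c, g', h1, h2, h3⟩ := div_lf_iter (1 / Real.pi ^ 2) hR bet z1 norm_bet bet_z1 m _ hg
  refine ⟨c, g', h1, ?_, ?_⟩
  · rw [h2, ev_mul' (hN.summable z1 norm_z1.le) ((hv.pow hR _).summable z1 norm_z1.le),
      ev_pow' hR hv z1 norm_z1.le, hv2]
    exact mul_ne_zero (ev_Num_ne t) (pow_ne_zero _ two_ne_zero)
  · rw [hm]
    have hg1 := lf_mul_ga bet
    have h4 : ∀ k, lf bet ^ k * ga bet ^ k = 1 := fun k => by rw [← mul_pow, hg1, one_pow]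
    have h5 : F t = (Num t * (lf bet * s⁻¹) ^ (m + 1)) * ga bet ^ (m + 1) := by
      unfold F
      rw [hm, mul_pow]
      linear_combination (-(Num t * s⁻¹ ^ (m + 1))) * h4 (m + 1)
    rw [h5, h3, add_mul, Finset.sum_mul]
    have h6 : lf bet ^ (m + 1) * g' * ga bet ^ (m + 1) = g' := by
      linear_combination g' * h4 (m + 1)
    rw [h6]
    congr 1
    refine Finset.sum_congr rfl fun i hi => ?_
    have hi' : i ≤ m + 1 := by
      have := Finset.mem_range.mp hi
      omega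
    have h7 : ga bet ^ (m + 1) = ga bet ^ (m + 1 - i) * ga bet ^ i := by
      rw [← pow_add, Nat.sub_add_cancel hi']
    rw [h7]
    linear_combination (C (c i) * ga bet ^ (m + 1 - i)) * h4 i

/-! ### the Gaussian transform -/

theorem Gau_add (b : ℂ) (f g : PS) : Gau b (f + g) = Gau b f + Gau b g := by
  ext k
  rw [map_add, Gau, Gau, Gau, coeff_mk, coeff_mk, coeff_mk, map_add]
  ring

theorem Gau_C_mul (b c : ℂ) (f : PS) : Gau b (C c * f) = C c * Gau b f := by
  ext k
  rw [coeff_C_mul, Gau, Gau, coeff_mk, coeff_mk, coeff_C_mul]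
  ring

theorem Gau_sum (b : ℂ) (T : Finset ℕ) (f : ℕ → PS) :
    Gau b (∑ i ∈ T, f i) = ∑ i ∈ T, Gau b (f i) := by
  classical
  induction T using Finset.induction_on with
  | empty =>
    ext k
    simp [Gau]
  | insert a T ha ih => rw [Finset.sum_insert ha, Finset.sum_insert ha, Gau_add, ih]

theorem Gau_ga (b β : ℂ) : Gau b (ga β) = psi (β * b) := by
  ext k
  rw [Gau, coeff_mk, ga, coeff_mk, psi, coeff_mk, mul_pow]
  ring

theorem Gau_small (b : ℂ) (hb : 0 < ‖b‖) (R : ℝ) (f : PS) (hf : Geo R f) :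
    Small (2 * ‖b‖ * R) (Gau b f) := by
  obtain ⟨B, C, h1, h2, h3, h4⟩ := hf
  refine ⟨2 * ‖b‖ * B, C, by positivity, by gcongr, h3, fun k => ?_⟩
  rw [Gau, coeff_mk, norm_mul, norm_mul, norm_pow, Complex.norm_real,
    Real.norm_of_nonneg (mu_pos k).le]
  have hm := mu_le k
  have hm0 := (mu_pos k).le
  calc ‖coeff k f‖ * mu k * ‖b‖ ^ k ≤ (C * B ^ k) * (2 ^ k * (k ! : ℝ)) * ‖b‖ ^ k := by
        refine mul_le_mul_of_nonneg_right ?_ (by positivity)
        exact mul_le_mul (h4 k) hm hm0 (by positivity)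
    _ = _ := by rw [mul_pow, mul_pow]; ring

/-- the derivation `z d/dz` -/
noncomputable def eu : Derivation ℂ PS PS := (X : PS) • (PowerSeries.derivative ℂ)

theorem coeff_eu (f : PS) (k : ℕ) : coeff k (eu f) = (k : ℂ) * coeff k f := by
  have : eu f = X * PowerSeries.derivative ℂ f := rfl
  rw [this]
  cases k with
  | zero => simp
  | succ m =>
    rw [coeff_succ_X_mul, PowerSeries.coeff_derivative]
    push_cast
    ring

theorem th_Gau (b : ℂ) (f : PS) : th (Gau b f) = X * Gau b (eu f) := by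
  ext k
  cases k with
  | zero => rw [coeff_th_zero, coeff_zero_X_mul]
  | succ k =>
    rw [coeff_th_succ, coeff_succ_X_mul, Gau, Gau, coeff_mk, coeff_mk, coeff_eu]
    ring

theorem eu_ga (β : ℂ) : eu (ga β) = (ga β - 1) * ga β := by
  have h := lf_mul_ga β
  have h1 := congrArg eu h
  rw [Derivation.leibniz, Derivation.map_one_eq_zero] at h1
  have h2 : eu (lf β) = -(C β * X) := by
    ext k
    rw [coeff_eu, map_neg, coeff_C_mul, coeff_X, lf, map_sub, coeff_one, coeff_C_mul, coeff_X]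
    by_cases hk : k = 1
    · subst hk; simp
    · simp only [if_neg hk]
      by_cases hk0 : k = 0
      · subst hk0; simp
      · rw [if_neg hk0]; simp
  rw [h2, smul_eq_mul, smul_eq_mul] at h1
  have h3 : C β * X * ga β = ga β - 1 := by
    unfold lf at h
    linear_combination -h
  have h4 : lf β * eu (ga β) = (ga β - 1) := by
    linear_combination h1 + h3
  calc eu (ga β) = (lf β * ga β) * eu (ga β) := by rw [h, one_mul]
    _ = ga β * (lf β * eu (ga β)) := by ring
    _ = _ := by rw [h4]; ring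

theorem eu_ga_pow (β : ℂ) (l : ℕ) : eu (ga β ^ (l + 1))
    = C ((l : ℂ) + 1) * (ga β ^ (l + 2) - ga β ^ (l + 1)) := by
  rw [Derivation.leibniz_pow, eu_ga, smul_eq_mul, nsmul_eq_mul, Nat.add_sub_cancel]
  have : (C ((l : ℂ) + 1) : PS) = (l : PS) + 1 := by
    rw [map_add, map_natCast, map_one]
  rw [this]
  push_cast
  ring

theorem psi_step (b β : ℂ) (l : ℕ) :
    C ((l : ℂ) + 1) * (X ^ (l + 1) * Gau b (ga β ^ (l + 2)))
      = th (X ^ l * Gau b (ga β ^ (l + 1))) + X * (X ^ l * Gau b (ga β ^ (l + 1))) := by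
  have h1 := th_Gau b (ga β ^ (l + 1))
  rw [eu_ga_pow, Gau_C_mul] at h1
  have h2 : Gau b (ga β ^ (l + 2) - ga β ^ (l + 1))
      = Gau b (ga β ^ (l + 2)) - Gau b (ga β ^ (l + 1)) := by
    have := Gau_add b (ga β ^ (l + 2) - ga β ^ (l + 1)) (ga β ^ (l + 1))
    rw [sub_add_cancel] at this
    rw [this]; ring
  rw [h2] at h1
  have h3 : th (X ^ l : PS) = (l : PS) * X ^ (l + 1) := by
    rw [th_apply, Derivation.leibniz_pow, PowerSeries.derivative_X, smul_eq_mul, nsmul_eq_mul,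
      mul_one]
    cases l with
    | zero => simp
    | succ l => rw [Nat.add_sub_cancel]; ring
  rw [Derivation.leibniz, smul_eq_mul, smul_eq_mul, h1, h3]
  have : (C ((l : ℂ) + 1) : PS) = (l : PS) + 1 := by
    rw [map_add, map_natCast, map_one]
  rw [this]
  ring

open Polynomial in
/-- `X ^ l` times the transform of `(1 - β z) ^ (-l-1)` is `A ψ + B` with polynomials `A`, `B` -/
theorem psi_pow (b β : ℂ) (hb : b ≠ 0) (hβ : β ≠ 0) (l : ℕ) : ∃ A B : ℂ[X], A.coeff 0 ≠ 0 ∧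
    (PowerSeries.X : PS) ^ l * Gau b (ga β ^ (l + 1)) = (A : PS) * psi (β * b) + (B : PS) := by
  have ha : β * b ≠ 0 := mul_ne_zero hβ hb
  set a := β * b with hadef
  have hθ : ∀ A : ℂ[X], th (A : PS) = ((Polynomial.X ^ 2 * derivative A : ℂ[X]) : PS) := by
    intro A
    rw [th_apply, PowerSeries.derivative_coe]
    push_cast
    rfl
  induction l with
  | zero =>
    refine ⟨1, 0, by simp, ?_⟩
    rw [pow_zero, zero_add, pow_one, Gau_ga]
    simp [hadef]
  | succ l ih =>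
    obtain ⟨A, B, hA, h⟩ := ih
    have hl : ((l : ℂ) + 1) ≠ 0 := by exact_mod_cast Nat.succ_ne_zero l
    have hst := psi_step b β l
    rw [h] at hst
    set e1 : ℂ[X] := Polynomial.C (1 / (2 * a)) * (1 - Polynomial.C a * Polynomial.X) with he1
    have he1c : (e1 : PS) = PowerSeries.C (1 / (2 * a)) * (1 - PowerSeries.C a * PowerSeries.X) := by
      rw [he1]; push_cast; rfl
    set A' : ℂ[X] := Polynomial.C (1 / ((l : ℂ) + 1)) *
      (Polynomial.X ^ 2 * derivative A + e1 * A + Polynomial.X * A) with hA'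
    set B' : ℂ[X] := Polynomial.C (1 / ((l : ℂ) + 1)) *
      (Polynomial.X ^ 2 * derivative B - Polynomial.C (1 / (2 * a)) * A + Polynomial.X * B) with hB'
    refine ⟨A', B', ?_, ?_⟩
    · rw [hA', Polynomial.coeff_C_mul, Polynomial.coeff_add, Polynomial.coeff_add,
        Polynomial.mul_coeff_zero, Polynomial.mul_coeff_zero, Polynomial.mul_coeff_zero]
      simp
      exact ⟨hl, ha, hA⟩
    · have hcc : (PowerSeries.C (1 / ((l : ℂ) + 1)) : PS) * PowerSeries.C ((l : ℂ) + 1) = 1 := by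
        rw [← map_mul, one_div_mul_cancel hl, map_one]
      have hA'c : (A' : PS) = PowerSeries.C (1 / ((l : ℂ) + 1)) *
          (th (A : PS) + (e1 : PS) * (A : PS) + PowerSeries.X * (A : PS)) := by
        rw [hA', hθ]; push_cast; rfl
      have hB'c : (B' : PS) = PowerSeries.C (1 / ((l : ℂ) + 1)) *
          (th (B : PS) - PowerSeries.C (1 / (2 * a)) * (A : PS) + PowerSeries.X * (B : PS)) := by
        rw [hB', hθ]; push_cast; rfl
      have hth : th ((A : PS) * psi a + (B : PS))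
          = th (A : PS) * psi a + (A : PS) * ((e1 : PS) * psi a - PowerSeries.C (1 / (2 * a)))
            + th (B : PS) := by
        rw [map_add, Derivation.leibniz, smul_eq_mul, smul_eq_mul, th_psi a ha, he1c]
        ring
      rw [hth] at hst
      rw [hA'c, hB'c, show l + 1 + 1 = l + 2 by ring]
      linear_combination (PowerSeries.C (1 / ((l : ℂ) + 1)) : PS) * hst
        - (PowerSeries.X ^ (l + 1) * Gau b (ga β ^ (l + 2))) * hcc

/-- the Borel parameter -/
noncomputable def aa (t : Fib) : ℂ := bet * ((t.P : ℂ) / 2)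

theorem norm_b (t : Fib) : 2 * ‖(t.P : ℂ) / 2‖ = t.P := by
  rw [norm_div, Complex.norm_natCast, Complex.norm_ofNat]
  ring

theorem b_ne (t : Fib) : (t.P : ℂ) / 2 ≠ 0 :=
  div_ne_zero (Nat.cast_ne_zero.mpr t.P_pos.ne') two_ne_zero

theorem bet_ne : bet ≠ 0 := by
  intro h
  have := bet_z1
  rw [h, zero_mul] at this
  exact zero_ne_one this

theorem aa_ne (t : Fib) : aa t ≠ 0 := mul_ne_zero bet_ne (b_ne t)

theorem norm_aa (t : Fib) : 2 * ‖aa t‖ = (t.P : ℝ) / Real.pi ^ 2 := by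
  unfold aa
  have := norm_b t
  rw [norm_mul, norm_bet]
  calc 2 * (1 / Real.pi ^ 2 * ‖(t.P : ℂ) / 2‖) = (2 * ‖(t.P : ℂ) / 2‖) / Real.pi ^ 2 := by ring
    _ = _ := by rw [this]

open Polynomial in
/-- **Decomposition of `G`** -/
theorem G_dec (t : Fib) : ∃ (A : ℂ[X]) (h : PS), A.coeff 0 ≠ 0 ∧
    Small ((t.P : ℝ) / Real.pi ^ 2) h ∧
    (PowerSeries.X : PS) ^ (t.S.card - 3) * G t = (A : PS) * psi (aa t) + h := by
  obtain ⟨c, g, hg, hc0, hF⟩ := F_dec t
  obtain ⟨m, hm⟩ : ∃ m, t.S.card = m + 3 := ⟨t.S.card - 3, by have := t.card; omega⟩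
  have e1 : t.S.card - 2 = m + 1 := by omega
  have e2 : t.S.card - 3 = m := by omega
  rw [e1] at hF
  rw [e2]
  choose A B hA hAB using psi_pow ((t.P : ℂ) / 2) bet (b_ne t) bet_ne
  have hP : (0 : ℝ) < t.P := by exact_mod_cast t.P_pos
  have hA0 : (0 : ℝ) < (t.P : ℝ) / Real.pi ^ 2 := by positivity
  have hbn : 0 < ‖(t.P : ℂ) / 2‖ := norm_pos_iff.mpr (b_ne t)
  have hgs : Small ((t.P : ℝ) / Real.pi ^ 2) (Gau ((t.P : ℂ) / 2) g) := by
    have := Gau_small ((t.P : ℂ) / 2) hbn _ g hg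
    rw [norm_b] at this
    have e : (t.P : ℝ) * (1 / Real.pi ^ 2) = (t.P : ℝ) / Real.pi ^ 2 := by ring
    rwa [e] at this
  have hpoly : ∀ Q : ℂ[X], (Q : PS) ∈ Sm ((t.P : ℝ) / Real.pi ^ 2) hA0 := by
    intro Q
    refine Small.of_finite hA0 _ (Q.natDegree + 1) fun k hk => ?_
    rw [Polynomial.coeff_coe]
    exact Polynomial.coeff_eq_zero_of_natDegree_lt (by omega)
  refine ⟨∑ i ∈ Finset.range (m + 1), Polynomial.C (c i) * Polynomial.X ^ i * A (m - i),
    ((∑ i ∈ Finset.range (m + 1), Polynomial.C (c i) * Polynomial.X ^ i * B (m - i) : ℂ[X]) : PS)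
      + PowerSeries.X ^ m * Gau ((t.P : ℂ) / 2) g, ?_, ?_, ?_⟩
  · rw [Finset.sum_range_succ', Polynomial.coeff_add]
    have h0 : (∑ k ∈ Finset.range m, Polynomial.C (c (k + 1)) * Polynomial.X ^ (k + 1)
        * A (m - (k + 1)) : ℂ[X]).coeff 0 = 0 := by
      rw [Polynomial.finsetSum_coeff]
      refine Finset.sum_eq_zero fun i _ => ?_
      rw [Polynomial.mul_coeff_zero, Polynomial.mul_coeff_zero, Polynomial.coeff_X_pow,
        if_neg (by omega)]
      ring
    rw [h0, zero_add, pow_zero, mul_one, Polynomial.coeff_C_mul, Nat.sub_zero]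
    exact mul_ne_zero hc0 (hA m)
  · exact (Sm _ hA0).add_mem (hpoly _) ((Sm _ hA0).mul_mem (Subring.pow_mem _ (X_mem_Sm _ _) _) hgs)
  · unfold G
    rw [hF, Gau_add, Gau_sum, mul_add, Finset.mul_sum]
    have hterm : ∀ i ∈ Finset.range (m + 1),
        (PowerSeries.X : PS) ^ m * Gau ((t.P : ℂ) / 2) (PowerSeries.C (c i) * ga bet ^ (m + 1 - i))
        = ((Polynomial.C (c i) * Polynomial.X ^ i * A (m - i) : ℂ[X]) : PS) * psi (aa t)
          + ((Polynomial.C (c i) * Polynomial.X ^ i * B (m - i) : ℂ[X]) : PS) := by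
      intro i hi
      have hi' : i ≤ m := by
        have := Finset.mem_range.mp hi
        omega
      have e3 : m + 1 - i = (m - i) + 1 := by omega
      have e4 : (PowerSeries.X : PS) ^ m = PowerSeries.X ^ i * PowerSeries.X ^ (m - i) := by
        rw [← pow_add]; congr 1; omega
      have h1 := hAB (m - i)
      rw [Gau_C_mul, e3, e4]
      push_cast
      unfold aa
      linear_combination (PowerSeries.C (c i) * PowerSeries.X ^ i : PS) * h1
    rw [Finset.sum_congr rfl hterm, Finset.sum_add_distrib, ← Finset.sum_mul]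
    have hcs : ∀ f : ℕ → ℂ[X], ((∑ i ∈ Finset.range (m + 1), f i : ℂ[X]) : PS)
        = ∑ i ∈ Finset.range (m + 1), ((f i : ℂ[X]) : PS) := fun f => by
      classical
      induction Finset.range (m + 1) using Finset.induction_on with
      | empty => simp
      | insert a T ha ih =>
        rw [Finset.sum_insert ha, Finset.sum_insert ha, Polynomial.coe_add, ih]
    rw [hcs, hcs]
    ring

/-- growth of `G` -/
theorem G_small (t : Fib) (A : ℝ) (h : (t.P : ℝ) / Real.pi ^ 2 < A) : Small A (G t) := by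
  have hP : (0 : ℝ) < t.P := by exact_mod_cast t.P_pos
  have hR : 1 / Real.pi ^ 2 < A / t.P := by
    rw [lt_div_iff₀ hP]
    calc 1 / Real.pi ^ 2 * (t.P : ℝ) = (t.P : ℝ) / Real.pi ^ 2 := by ring
      _ < A := h
  have hR0 : 0 < A / t.P := R0_pos.trans hR
  have hF : Geo (A / t.P) (F t) :=
    (Geo.of_ent hR0 (ent_Num t)).mul ((geo_s_inv _ hR).pow hR0 _)
  have := Gau_small ((t.P : ℂ) / 2) (norm_pos_iff.mpr (b_ne t)) _ _ hF
  rw [norm_b] at this
  have e : (t.P : ℝ) * (A / t.P) = A := by field_simp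
  rw [e] at this
  exact this

end Q57.LS
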