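import Mathlib
import Pool.Agent.Q57.LS.Dec

/-! Different sets of multiplicities give non proportional series. -/

open PowerSeries

set_option linter.unusedSectionVars false

namespace Q57.LS

open scoped Nat
open Q57.LM

theorem Ent.add {f g : PS} (hf : Ent f) (hg : Ent g) : Ent (f + g) := by
  intro ρ hρ
  refine Summable.of_nonneg_of_le (fun i => by positivity) (fun i => ?_)
    ((hf ρ hρ).add (hg ρ hρ))
  rw [map_add, ← add_mul]
  exact mul_le_mul_of_nonneg_right (norm_add_le _ _) (by positivity)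

theorem Ent.neg {f : PS} (hf : Ent f) : Ent (-f) := by
  intro ρ hρ
  refine (hf ρ hρ).congr fun i => ?_
  rw [map_neg, norm_neg]

theorem Ent.sub {f g : PS} (hf : Ent f) (hg : Ent g) : Ent (f - g) := by
  rw [sub_eq_add_neg]; exact Ent.add hf (Ent.neg hg)

theorem ent_one : Ent 1 := ent_of_finite 1 1 fun k hk => by rw [coeff_one, if_neg (by omega)]

theorem Ent.pow {f : PS} (hf : Ent f) (n : ℕ) : Ent (f ^ n) := by
  induction n with
  | zero => rw [pow_zero]; exact ent_one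
  | succ n ih => rw [pow_succ]; exact ih.mul hf

theorem Ent.sum {T : Finset ℕ} {f : ℕ → PS} (hf : ∀ i, Ent (f i)) : Ent (∑ i ∈ T, f i) := by
  classical
  induction T using Finset.induction_on with
  | empty => rw [Finset.sum_empty]; exact ent_of_finite 0 0 fun k _ => by simp
  | insert a T ha ih => rw [Finset.sum_insert ha]; exact Ent.add (hf a) ih

theorem Ent.eu {f : PS} (hf : Ent f) : Ent (eu f) := by
  intro ρ hρ
  refine Summable.of_nonneg_of_le (fun i => by positivity) (fun i => ?_) (hf (2 * ρ) (by positivity))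
  rw [coeff_eu, norm_mul, Complex.norm_natCast, mul_pow]
  have h1 : (i : ℝ) ≤ 2 ^ i := by exact_mod_cast (Nat.lt_two_pow_self (n := i)).le
  calc (i : ℝ) * ‖coeff i f‖ * ρ ^ i ≤ 2 ^ i * ‖coeff i f‖ * ρ ^ i := by gcongr
    _ = _ := by ring

theorem ev_add {f g : PS} (hf : Ent f) (hg : Ent g) (z : ℂ) : ev z (f + g) = ev z f + ev z g :=
  ev_add' (hf.summable z) (hg.summable z)

theorem ev_neg (f : PS) (z : ℂ) : ev z (-f) = -ev z f := by
  unfold ev
  rw [← tsum_neg]
  exact tsum_congr fun i => by rw [map_neg]; ring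

theorem ev_sub {f g : PS} (hf : Ent f) (hg : Ent g) (z : ℂ) : ev z (f - g) = ev z f - ev z g := by
  rw [sub_eq_add_neg, ev_add hf (Ent.neg hg), ev_neg, ← sub_eq_add_neg]

/-! ### the polynomial `(2k-1)(2k-3)…(2k-2j+1)` -/

/-- `∏_{l<j} (2k - 2l - 1)` -/
noncomputable def Qc (j k : ℕ) : ℂ := ∏ l ∈ Finset.range j, (2 * (k : ℂ) - 2 * (l : ℂ) - 1)

theorem Qc_split (i j k : ℕ) (h : i ≤ k) : Qc (i + j) k = Qc i k * Qc j (k - i) := by
  unfold Qc
  rw [Finset.prod_range_add]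
  congr 1
  refine Finset.prod_congr rfl fun l _ => ?_
  rw [Nat.cast_sub h]
  push_cast
  ring

theorem mu_Qc (i k : ℕ) (h : i ≤ k) :
    ((mu k : ℝ) : ℂ) = Qc i k * ((mu (k - i) : ℝ) : ℂ) := by
  induction i with
  | zero => simp [Qc]
  | succ i ih =>
    have e : k - i = (k - (i + 1)) + 1 := by omega
    rw [ih (by omega), e, mu_succ, Qc, Qc, Finset.prod_range_succ]
    have e2 : ((k - (i + 1) : ℕ) : ℂ) = (k : ℂ) - (i + 1) := by
      rw [Nat.cast_sub h]; push_cast; ring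
    push_cast
    rw [e2]
    ring

/-- the operator `(2ϑ-1)(2ϑ-3)…` -/
noncomputable def QN (j : ℕ) (f : PS) : PS := PowerSeries.mk fun k => Qc j k * coeff k f

theorem QN_zero (f : PS) : QN 0 f = f := by
  ext k
  rw [QN, coeff_mk, Qc]
  simp

theorem QN_succ (j : ℕ) (f : PS) :
    QN (j + 1) f = 2 * eu (QN j f) - (2 * (j : PS) + 1) * QN j f := by
  ext k
  have e2 : (2 : PS) = C (2 : ℂ) := (map_ofNat (C : ℂ →+* PS) 2).symm
  have e3 : (2 * (j : PS) + 1) = C (2 * (j : ℂ) + 1) := by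
    rw [map_add, map_mul, map_natCast, map_one, map_ofNat]
  rw [e3, e2, map_sub, coeff_C_mul, coeff_C_mul, coeff_eu, QN, QN, coeff_mk, coeff_mk, Qc, Qc,
    Finset.prod_range_succ]
  ring

/-- the numerators of the derivatives -/
noncomputable def Mj (N0 : PS) (r : ℕ) : ℕ → PS
  | 0 => N0
  | (j + 1) => 2 * (s * eu (Mj N0 r j) - ((r : PS) + (j : PS)) * Mj N0 r j * eu s)
      - (2 * (j : PS) + 1) * s * Mj N0 r j

theorem natCast_eq_C (n : ℕ) : (n : PS) = C (n : ℂ) := (map_natCast (C : ℂ →+* PS) n).symm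

theorem ent_natCast (n : ℕ) : Ent (n : PS) := by rw [natCast_eq_C]; exact ent_C _

theorem ent_two : Ent (2 : PS) := by
  have : (2 : PS) = C (2 : ℂ) := (map_ofNat (C : ℂ →+* PS) 2).symm
  rw [this]; exact ent_C _

theorem ev_natCast (n : ℕ) (z : ℂ) : ev z (n : PS) = n := by rw [natCast_eq_C, ev_C]

theorem ev_two (z : ℂ) : ev z (2 : PS) = 2 := by
  have : (2 : PS) = C (2 : ℂ) := (map_ofNat (C : ℂ →+* PS) 2).symm
  rw [this, ev_C]

theorem ent_Mj (N0 : PS) (h : Ent N0) (r j : ℕ) : Ent (Mj N0 r j) := by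
  induction j with
  | zero => exact h
  | succ j ih =>
    unfold Mj
    exact Ent.sub (ent_two.mul (Ent.sub (ent_s.mul (Ent.eu ih))
      (((Ent.add (ent_natCast r) (ent_natCast j)).mul ih).mul (Ent.eu ent_s))))
      (((Ent.add (ent_two.mul (ent_natCast j)) ent_one).mul ent_s).mul ih)

theorem ev_Mj (N0 : PS) (h : Ent N0) (r j : ℕ) (z : ℂ) (hz : ev z s = 0) :
    ev z (Mj N0 r j) = (∏ l ∈ Finset.range j, (-2 * ((r : ℂ) + l) * ev z (eu s))) * ev z N0 := by
  induction j with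
  | zero => simp [Mj]
  | succ j ih =>
    have e1 := ent_Mj N0 h r j
    have a1 : Ent (s * eu (Mj N0 r j)) := ent_s.mul (Ent.eu e1)
    have a2 : Ent (((r : PS) + (j : PS)) * Mj N0 r j) :=
      (Ent.add (ent_natCast r) (ent_natCast j)).mul e1
    have a3 : Ent (((r : PS) + (j : PS)) * Mj N0 r j * eu s) := a2.mul (Ent.eu ent_s)
    have a4 : Ent ((2 * (j : PS) + 1) * s) :=
      (Ent.add (ent_two.mul (ent_natCast j)) ent_one).mul ent_s
    have hM : Mj N0 r (j + 1) = 2 * (s * eu (Mj N0 r j) - ((r : PS) + (j : PS)) * Mj N0 r j * eu s)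
      - (2 * (j : PS) + 1) * s * Mj N0 r j := rfl
    rw [hM, ev_sub (ent_two.mul (Ent.sub a1 a3)) (a4.mul e1), ev_mul ent_two (Ent.sub a1 a3),
      ev_sub a1 a3, ev_mul ent_s (Ent.eu e1), ev_mul a2 (Ent.eu ent_s),
      ev_mul (Ent.add (ent_natCast r) (ent_natCast j)) e1, ev_mul a4 e1,
      ev_mul (Ent.add (ent_two.mul (ent_natCast j)) ent_one) ent_s,
      ev_add (ent_natCast r) (ent_natCast j), ev_natCast, ev_natCast, ev_two, hz, ih,
      Finset.prod_range_succ]
    ring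

theorem QN_Mj (N0 f : PS) (r : ℕ) (hf : f * s ^ (r + 1) = N0) (j : ℕ) :
    QN j f * s ^ (r + 1 + j) = Mj N0 (r + 1) j := by
  induction j with
  | zero => rw [QN_zero, add_zero, hf]; rfl
  | succ j ih =>
    have hM : Mj N0 (r + 1) (j + 1) = 2 * (s * eu (Mj N0 (r + 1) j)
      - (((r + 1 : ℕ) : PS) + (j : PS)) * Mj N0 (r + 1) j * eu s)
      - (2 * (j : PS) + 1) * s * Mj N0 (r + 1) j := rfl
    have h1 := congrArg eu ih
    rw [Derivation.leibniz, Derivation.leibniz_pow, smul_eq_mul, smul_eq_mul, smul_eq_mul,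
      nsmul_eq_mul] at h1
    have e1 : r + 1 + j - 1 = r + j := by omega
    rw [e1] at h1
    rw [hM, QN_succ, ← h1, ← ih]
    push_cast
    have e2 : s ^ (r + 1 + (j + 1)) = s ^ (r + j) * s * s := by
      rw [← pow_succ, ← pow_succ]; congr 1; omega
    have e3 : s ^ (r + 1 + j) = s ^ (r + j) * s := by
      rw [← pow_succ]; congr 1; omega
    rw [e2, e3]
    ring

/-! ### the relation between the transforms -/

open Polynomial in
theorem rel_coeff (A : ℂ[X]) (b : ℂ) (hb : b ≠ 0) (f : PS) (N : ℕ) (hN : A.natDegree ≤ N)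
    (k : ℕ) :
    coeff k (∑ i ∈ Finset.range (N + 1), PowerSeries.C (A.coeff i * (1 / b) ^ i)
      * (PowerSeries.X : PS) ^ i * QN (N - i) f) * (((mu k : ℝ) : ℂ) * b ^ k)
    = Qc N k * PowerSeries.coeff k ((A : PS) * Gau b f) := by
  set M := N + k + 1 with hM
  -- left side
  have hL : PowerSeries.coeff k (∑ i ∈ Finset.range (N + 1), PowerSeries.C (A.coeff i * (1 / b) ^ i)
      * (PowerSeries.X : PS) ^ i * QN (N - i) f)
      = ∑ i ∈ Finset.range (N + 1), (if i ≤ k then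
          A.coeff i * (1 / b) ^ i * (Qc (N - i) (k - i) * PowerSeries.coeff (k - i) f) else 0) := by
    rw [map_sum]
    refine Finset.sum_congr rfl fun i _ => ?_
    rw [mul_assoc, PowerSeries.coeff_C_mul, PowerSeries.coeff_X_pow_mul']
    split_ifs with h
    · rw [QN, PowerSeries.coeff_mk]
    · rw [mul_zero]
  have hR : PowerSeries.coeff k ((A : PS) * Gau b f)
      = ∑ i ∈ Finset.range (N + 1), (if i ≤ k then
          A.coeff i * (PowerSeries.coeff (k - i) f * ((mu (k - i) : ℝ) : ℂ) * b ^ (k - i))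
          else 0) := by
    rw [PowerSeries.coeff_mul, Finset.Nat.sum_antidiagonal_eq_sum_range_succ
      (fun i j => PowerSeries.coeff i (A : PS) * PowerSeries.coeff j (Gau b f))]
    have h1 : ∑ i ∈ Finset.range k.succ, PowerSeries.coeff i (A : PS)
        * PowerSeries.coeff (k - i) (Gau b f)
        = ∑ i ∈ Finset.range M, (if i ≤ k then
          A.coeff i * (PowerSeries.coeff (k - i) f * ((mu (k - i) : ℝ) : ℂ) * b ^ (k - i))
          else 0) := by
      rw [← Finset.sum_subset (s₁ := Finset.range k.succ) (s₂ := Finset.range M)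
        (Finset.range_subset_range.mpr (by omega))]
      · refine Finset.sum_congr rfl fun i hi => ?_
        have := Finset.mem_range.mp hi
        rw [if_pos (by omega), Polynomial.coeff_coe, Gau, PowerSeries.coeff_mk]
      · intro i _ hi
        rw [Finset.mem_range] at hi
        rw [if_neg (by omega)]
    have h2 : ∑ i ∈ Finset.range (N + 1), (if i ≤ k then
          A.coeff i * (PowerSeries.coeff (k - i) f * ((mu (k - i) : ℝ) : ℂ) * b ^ (k - i))
          else 0)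
        = ∑ i ∈ Finset.range M, (if i ≤ k then
          A.coeff i * (PowerSeries.coeff (k - i) f * ((mu (k - i) : ℝ) : ℂ) * b ^ (k - i))
          else 0) := by
      refine Finset.sum_subset (Finset.range_subset_range.mpr (by omega)) ?_
      intro i _ hi
      rw [Finset.mem_range] at hi
      rw [Polynomial.coeff_eq_zero_of_natDegree_lt (by omega)]
      simp
    rw [h1, h2]
  rw [hL, hR, Finset.sum_mul, Finset.mul_sum]
  refine Finset.sum_congr rfl fun i hi => ?_
  have hi' : i ≤ N := by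
    have := Finset.mem_range.mp hi
    omega
  split_ifs with h
  · have h1 := Qc_split i (N - i) k h
    have h2 := mu_Qc i k h
    have e1 : i + (N - i) = N := by omega
    rw [e1] at h1
    have h3 : b ^ k = b ^ (k - i) * b ^ i := by rw [← pow_add, Nat.sub_add_cancel h]
    have h4 : (1 / b) ^ i * b ^ i = 1 := by
      rw [← mul_pow, one_div_mul_cancel hb, one_pow]
    rw [h1, h2, h3]
    linear_combination (A.coeff i * (Qc (N - i) (k - i) * PowerSeries.coeff (k - i) f)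
      * (Qc i k * ((mu (k - i) : ℝ) : ℂ)) * b ^ (k - i)) * h4
  · simp

open Polynomial in
theorem rel_QN (A B : ℂ[X]) (b : ℂ) (hb : b ≠ 0) (f g : PS) (N : ℕ) (hA : A.natDegree ≤ N)
    (hB : B.natDegree ≤ N) (h : (A : PS) * Gau b f = (B : PS) * Gau b g) :
    ∑ i ∈ Finset.range (N + 1), PowerSeries.C (A.coeff i * (1 / b) ^ i)
      * (PowerSeries.X : PS) ^ i * QN (N - i) f
    = ∑ i ∈ Finset.range (N + 1), PowerSeries.C (B.coeff i * (1 / b) ^ i)
      * (PowerSeries.X : PS) ^ i * QN (N - i) g := by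
  ext k
  have h1 := rel_coeff A b hb f N hA k
  have h2 := rel_coeff B b hb g N hB k
  rw [h, ← h2] at h1
  have hne : (((mu k : ℝ) : ℂ) * b ^ k) ≠ 0 := by
    refine mul_ne_zero ?_ (pow_ne_zero _ hb)
    exact_mod_cast (mu_pos k).ne'
  exact mul_right_cancel₀ hne h1

open Polynomial in
/-- the relation at the zeros of `s` -/
theorem rel_ev (A B : ℂ[X]) (b : ℂ) (hb : b ≠ 0) (N1 N2 f g : PS) (h1 : Ent N1) (h2 : Ent N2)
    (r : ℕ) (hf : f * s ^ (r + 1) = N1) (hg : g * s ^ (r + 1) = N2)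
    (h : (A : PS) * Gau b f = (B : PS) * Gau b g) (z : ℂ) (hz : ev z s = 0)
    (hz' : ev z (eu s) ≠ 0) : A.coeff 0 * ev z N1 = B.coeff 0 * ev z N2 := by
  set N := max A.natDegree B.natDegree with hN
  have hrel := rel_QN A B b hb f g N (le_max_left _ _) (le_max_right _ _) h
  have key : ∀ (Q : ℂ[X]) (N0 f0 : PS), f0 * s ^ (r + 1) = N0 →
      (∑ i ∈ Finset.range (N + 1), PowerSeries.C (Q.coeff i * (1 / b) ^ i)
        * (PowerSeries.X : PS) ^ i * QN (N - i) f0) * s ^ (r + 1 + N)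
      = PowerSeries.C (Q.coeff 0) * Mj N0 (r + 1) N
        + s * ∑ i ∈ Finset.range N, PowerSeries.C (Q.coeff (i + 1) * (1 / b) ^ (i + 1))
        * (PowerSeries.X : PS) ^ (i + 1) * s ^ i * Mj N0 (r + 1) (N - (i + 1)) := by
    intro Q N0 f0 hf0
    rw [Finset.sum_range_succ', add_mul, Finset.sum_mul, Finset.mul_sum, add_comm]
    congr 1
    · rw [pow_zero, pow_zero, mul_one, mul_one, Nat.sub_zero, mul_assoc,
        QN_Mj N0 f0 r hf0 N]
    · refine Finset.sum_congr rfl fun i hi => ?_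
      have hi' := Finset.mem_range.mp hi
      have e1 : s ^ (r + 1 + N) = s ^ (r + 1 + (N - (i + 1))) * (s ^ i * s) := by
        rw [← pow_succ, ← pow_add]; congr 1; omega
      have e2 := QN_Mj N0 f0 r hf0 (N - (i + 1))
      rw [e1]
      linear_combination (PowerSeries.C (Q.coeff (i + 1) * (1 / b) ^ (i + 1))
        * (PowerSeries.X : PS) ^ (i + 1) * (s ^ i * s)) * e2
  have h3 := congrArg (fun x => ev z (x * s ^ (r + 1 + N))) hrel
  rw [key A N1 f hf, key B N2 g hg] at h3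
  have hent : ∀ (Q : ℂ[X]) (N0 : PS), Ent N0 →
      Ent (∑ i ∈ Finset.range N, PowerSeries.C (Q.coeff (i + 1) * (1 / b) ^ (i + 1))
        * (PowerSeries.X : PS) ^ (i + 1) * s ^ i * Mj N0 (r + 1) (N - (i + 1))) := by
    intro Q N0 h0
    exact Ent.sum fun i => (((ent_C _).mul (Ent.pow ent_X _)).mul (Ent.pow ent_s _)).mul
      (ent_Mj N0 h0 _ _)
  rw [ev_add ((ent_C _).mul (ent_Mj N1 h1 _ _)) (ent_s.mul (hent A N1 h1)),
    ev_add ((ent_C _).mul (ent_Mj N2 h2 _ _)) (ent_s.mul (hent B N2 h2)),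
    ev_mul ent_s (hent A N1 h1), ev_mul ent_s (hent B N2 h2), hz, zero_mul, zero_mul, add_zero,
    add_zero, ev_mul (ent_C _) (ent_Mj N1 h1 _ _), ev_mul (ent_C _) (ent_Mj N2 h2 _ _), ev_C, ev_C,
    ev_Mj N1 h1 _ _ z hz, ev_Mj N2 h2 _ _ z hz] at h3
  have hk : (∏ l ∈ Finset.range N, (-2 * (((r + 1 : ℕ) : ℂ) + l) * ev z (eu s))) ≠ 0 := by
    refine Finset.prod_ne_zero_iff.mpr fun l _ => ?_
    refine mul_ne_zero (mul_ne_zero (by norm_num) ?_) hz'
    have : (((r + 1 : ℕ) : ℂ) + l) = ((r + 1 + l : ℕ) : ℂ) := by push_cast; ring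
    rw [this]
    exact_mod_cast (by omega : r + 1 + l ≠ 0)
  refine mul_left_cancel₀ hk ?_
  linear_combination h3

/-! ### the zeros of `s` -/

theorem ev_s_zero (m : ℕ) (hm : m ≠ 0) : ev (((-((Real.pi * m) ^ 2) : ℝ)) : ℂ) s = 0 := by
  have hx : Real.pi * m ≠ 0 := mul_ne_zero Real.pi_ne_zero (Nat.cast_ne_zero.mpr hm)
  rw [ev_s _ hx]
  have : Real.sin (Real.pi * m) = 0 := by rw [mul_comm]; exact Real.sin_nat_mul_pi m
  rw [this]; simp

theorem ev_cos (x : ℝ) : ev (((-(x ^ 2) : ℝ)) : ℂ) (s + 2 * eu s) = ((Real.cos x : ℝ) : ℂ) := by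
  have h1 := Real.hasSum_cos x
  have h2 : HasSum (fun n : ℕ => (((-1) ^ n * x ^ (2 * n) / ((2 * n)! : ℝ) : ℝ) : ℂ))
      ((Real.cos x : ℝ) : ℂ) := Complex.hasSum_ofReal.mpr h1
  unfold ev
  rw [← h2.tsum_eq]
  refine tsum_congr fun n => ?_
  have e2 : (2 : PS) = C (2 : ℂ) := (map_ofNat (C : ℂ →+* PS) 2).symm
  rw [e2, map_add, coeff_C_mul, coeff_eu, s, coeff_mk]
  have hf : ((2 * n)! : ℂ) ≠ 0 := by exact_mod_cast Nat.factorial_ne_zero _
  have hf2 : (2 * (n : ℂ) + 1) ≠ 0 := by exact_mod_cast Nat.succ_ne_zero (2 * n)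
  rw [Nat.factorial_succ]
  push_cast
  rw [neg_pow, ← pow_mul]
  field_simp
  ring

theorem ev_eu_s_ne (m : ℕ) (hm : m ≠ 0) :
    ev (((-((Real.pi * m) ^ 2) : ℝ)) : ℂ) (eu s) ≠ 0 := by
  intro h
  have h1 := ev_cos (Real.pi * m)
  rw [ev_add ent_s (ent_two.mul (Ent.eu ent_s)), ev_mul ent_two (Ent.eu ent_s), h, mul_zero,
    add_zero, ev_s_zero m hm] at h1
  have h2 : Real.cos (Real.pi * m) = 0 := by exact_mod_cast h1.symm
  have h3 : Real.cos (Real.pi * m) = (-1) ^ m := by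
    rw [mul_comm]; exact Real.cos_nat_mul_pi m
  rw [h3] at h2
  exact pow_ne_zero m (by norm_num) h2

theorem ev_Num_zero (t : Fib) (m : ℕ) (hm : m ≠ 0) :
    ev (((-((Real.pi * m) ^ 2) : ℝ)) : ℂ) (Num t) = 0 ↔ ∃ p ∈ t.S, p ∣ m := by
  have hm' : (m : ℝ) ≠ 0 := Nat.cast_ne_zero.mpr hm
  have hx : Real.pi * m ≠ 0 := mul_ne_zero Real.pi_ne_zero hm'
  have hP : (1 / (t.P : ℂ)) ≠ 0 := one_div_ne_zero (Nat.cast_ne_zero.mpr t.P_pos.ne')
  have hz : (((-((Real.pi * m) ^ 2) : ℝ)) : ℂ) ≠ 0 := by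
    exact_mod_cast neg_ne_zero.mpr (pow_ne_zero 2 hx)
  rw [ev_Num, mul_eq_zero, mul_eq_zero, Finset.prod_eq_zero_iff]
  have key : ∀ p : ℕ, 2 ≤ p → (ev (((-((Real.pi * m) ^ 2) : ℝ)) : ℂ) (sc p) = 0 ↔ p ∣ m) := by
    intro p hp
    rw [ev_sc p (by omega) _ hx, Complex.ofReal_eq_zero, div_eq_zero_iff,
      sin_eq_zero_iff_dvd p m (by omega) hm]
    have : Real.pi * m / p ≠ 0 := div_ne_zero hx (Nat.cast_ne_zero.mpr (by omega))
    constructor
    · rintro (h | h)
      · exact h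
      · exact absurd h this
    · exact Or.inl
  constructor
  · rintro ((h | h) | ⟨p, hp, h⟩)
    · exact absurd h hP
    · exact absurd h hz
    · exact ⟨p, hp, (key p (t.two p hp)).mp h⟩
  · rintro ⟨p, hp, h⟩
    exact Or.inr ⟨p, hp, (key p (t.two p hp)).mpr h⟩

theorem fib_sub (t u : Fib) (h : ∀ m : ℕ, m ≠ 0 → ((∃ p ∈ t.S, p ∣ m) ↔ ∃ p ∈ u.S, p ∣ m)) :
    t.S ⊆ u.S := by
  intro a ha
  have ha0 : a ≠ 0 := by have := t.two a ha; omega
  obtain ⟨x, hx, hxa⟩ := (h a ha0).mp ⟨a, ha, dvd_rfl⟩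
  have hx0 : x ≠ 0 := by have := u.two x hx; omega
  obtain ⟨y, hy, hyx⟩ := (h x hx0).mpr ⟨x, hx, dvd_rfl⟩
  have hya : y = a := by
    by_contra hne
    exact coprime_absurd (t.two y hy) (t.cop a ha y hy (Ne.symm hne)) (hyx.trans hxa)
  have hxa' : x = a := Nat.dvd_antisymm hxa (hya ▸ hyx)
  exact hxa' ▸ hx

theorem fib_eq (t u : Fib) (h : ∀ m : ℕ, m ≠ 0 → ((∃ p ∈ t.S, p ∣ m) ↔ ∃ p ∈ u.S, p ∣ m)) :
    t = u :=
  Fib.ext' (Finset.Subset.antisymm (fib_sub t u h) (fib_sub u t fun m hm => (h m hm).symm))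

/-! ### the first coefficients of `G` -/

theorem constantCoeff_prod (T : Finset ℕ) : constantCoeff (∏ p ∈ T, sc p) = 1 := by
  rw [map_prod]
  exact Finset.prod_eq_one fun p _ => constantCoeff_sc p

theorem F_eq_X (t : Fib) : F t = X * (C (1 / (t.P : ℂ)) * (∏ p ∈ t.S, sc p)
    * s⁻¹ ^ (t.S.card - 2)) := by
  unfold F Num; ring

theorem coeff_G_zero (t : Fib) : coeff 0 (G t) = 0 := by
  rw [G, Gau, coeff_mk, F_eq_X, coeff_zero_X_mul]
  simp

theorem coeff_G_one (t : Fib) : coeff 1 (G t) = 1 / 2 := by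
  have h2 : coeff 1 (F t) = 1 / (t.P : ℂ) := by
    rw [F_eq_X, show (1 : ℕ) = 0 + 1 from rfl, coeff_succ_X_mul,
      coeff_zero_eq_constantCoeff_apply, map_mul, map_mul, map_pow, constantCoeff_prod,
      ← coeff_zero_eq_constantCoeff_apply (s⁻¹), coeff_s_inv]
    have : wc 0 = 1 := by unfold wc; norm_num
    rw [this]
    simp
  have hP : (t.P : ℂ) ≠ 0 := Nat.cast_ne_zero.mpr t.P_pos.ne'
  have h3 : mu 1 = 1 := by
    have := mu_succ 0
    rw [mu_zero] at this
    simpa using this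
  rw [G, Gau, coeff_mk, h2, h3]
  push_cast
  field_simp

theorem G_ne (t : Fib) : G t ≠ 0 := by
  intro h
  have := coeff_G_one t
  rw [h, map_zero] at this
  norm_num at this

theorem exp_eq_of_rel (e e' : ℕ) (A B f g : PS) (hA : constantCoeff A ≠ 0)
    (hf0 : coeff 0 f = 0) (hf1 : coeff 1 f ≠ 0) (hg0 : coeff 0 g = 0)
    (h : A * (X ^ e * f) = B * (X ^ e' * g)) : e' ≤ e := by
  by_contra hlt
  obtain ⟨d, hd⟩ : ∃ d, e' = e + (d + 1) := ⟨e' - e - 1, by omega⟩
  have h1 : X ^ e * (A * f) = X ^ e * (B * (X ^ (d + 1) * g)) := by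
    rw [hd, pow_add] at h
    linear_combination h
  have h2 : A * f = B * (X ^ (d + 1) * g) := mul_left_cancel₀ (pow_ne_zero _ X_ne_zero) h1
  have h3 := congrArg (coeff 1) h2
  have c1 : ∀ f g : PS, coeff 1 (f * g) = coeff 0 f * coeff 1 g + coeff 1 f * coeff 0 g := by
    intro f g
    rw [coeff_mul, Finset.Nat.sum_antidiagonal_eq_sum_range_succ
      (fun i j => coeff i f * coeff j g), Finset.sum_range_succ, Finset.sum_range_one]
  have h4 : B * (X ^ (d + 1) * g) = X * (X ^ d * (B * g)) := by ring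
  have h5 : coeff 0 (X ^ d * (B * g)) = 0 := by
    rw [coeff_zero_eq_constantCoeff_apply, map_mul, map_mul,
      ← coeff_zero_eq_constantCoeff_apply g, hg0]
    ring
  rw [c1, hf0, h4, show (1 : ℕ) = 0 + 1 from rfl, coeff_succ_X_mul, h5, mul_zero, add_zero,
    zero_add, coeff_zero_eq_constantCoeff_apply] at h3
  exact mul_ne_zero hA hf1 h3

open Polynomial in
/-- **Different multiplicities give non proportional series** -/
theorem G_eq (t u : Fib) (hP : t.P = u.P) (A B : ℂ[X]) (hA : A.coeff 0 ≠ 0) (hB : B.coeff 0 ≠ 0)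
    (h : (A : PS) * ((PowerSeries.X : PS) ^ (t.S.card - 3) * G t)
      = (B : PS) * ((PowerSeries.X : PS) ^ (u.S.card - 3) * G u)) : t = u := by
  have hA' : PowerSeries.constantCoeff (A : PS) ≠ 0 := by
    rw [← PowerSeries.coeff_zero_eq_constantCoeff_apply, Polynomial.coeff_coe]; exact hA
  have hB' : PowerSeries.constantCoeff (B : PS) ≠ 0 := by
    rw [← PowerSeries.coeff_zero_eq_constantCoeff_apply, Polynomial.coeff_coe]; exact hB
  have hone : ∀ v : Fib, PowerSeries.coeff 1 (G v) ≠ 0 := fun v => by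
    rw [coeff_G_one]; norm_num
  have e1 := exp_eq_of_rel _ _ _ _ _ _ hA' (coeff_G_zero t) (hone t) (coeff_G_zero u) h
  have e2 := exp_eq_of_rel _ _ _ _ _ _ hB' (coeff_G_zero u) (hone u) (coeff_G_zero t) h.symm
  have ht := t.card
  have hu := u.card
  have hcard : t.S.card = u.S.card := by omega
  obtain ⟨r, hr⟩ : ∃ r, t.S.card - 2 = r + 1 := ⟨t.S.card - 3, by omega⟩
  have hr' : u.S.card - 2 = r + 1 := by omega
  have h1 : (A : PS) * G t = (B : PS) * G u := by
    rw [hcard] at h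
    refine mul_left_cancel₀ (pow_ne_zero (u.S.card - 3) PowerSeries.X_ne_zero) ?_
    linear_combination h
  have hs : s * s⁻¹ = 1 := PowerSeries.mul_inv_cancel _ constantCoeff_s
  have hFs : ∀ v : Fib, v.S.card - 2 = r + 1 → F v * s ^ (r + 1) = Num v := by
    intro v hv
    unfold F
    rw [hv]
    have : s ^ (r + 1) * s⁻¹ ^ (r + 1) = 1 := by rw [← mul_pow, hs, one_pow]
    linear_combination (Num v) * this
  refine fib_eq t u fun m hm => ?_
  have h2 := rel_ev A B ((u.P : ℂ) / 2) (b_ne u) (Num t) (Num u) (F t) (F u) (ent_Num t)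
    (ent_Num u) r (hFs t hr) (hFs u hr') (by
      unfold G at h1
      rw [hP] at h1
      exact h1) _ (ev_s_zero m hm) (ev_eu_s_ne m hm)
  rw [← ev_Num_zero t m hm, ← ev_Num_zero u m hm]
  constructor
  · intro h3
    rw [h3, mul_zero] at h2
    exact (mul_eq_zero.mp h2.symm).resolve_left hB
  · intro h3
    rw [h3, mul_zero] at h2
    exact (mul_eq_zero.mp h2).resolve_left hA

end Q57.LS
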