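import Mathlib
import Pool.Agent.Q57.LS.Dist
import Pool.Agent.Q57.LM.Indep

/-! Multiplicative independence modulo series of small growth, any number of fibres. -/

open PowerSeries

set_option linter.unusedSectionVars false

namespace Q57.LS

open scoped Nat
open scoped Polynomial
open Q57.LM (PS Small Sm C_mem_Sm X_mem_Sm mem_Sm CoefIn Tr adj le_adj self_mem_adj psi tr_psi
  sg sg_sq sg_ne norm_sg rescale_small rescale_psi rescale_rescale_sg CoefIn_C CoefIn_lin
  CoefIn_sub CoefIn_mul CoefIn_prod CoefIn_pow)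

/-- the series of `±Σ`, times a power of `X` -/
noncomputable def Gs (j : Bool × Fib) : PS := rescale (sg j.1) (X ^ (j.2.S.card - 3) * G j.2)

theorem rescale_ne (e : Bool) (f : PS) (hf : f ≠ 0) : rescale (sg e) f ≠ 0 := by
  intro h1
  have := congrArg (rescale (sg e)) h1
  rw [rescale_rescale_sg, map_zero] at this
  exact hf this

theorem Gs_ne (j : Bool × Fib) : Gs j ≠ 0 :=
  rescale_ne _ _ (mul_ne_zero (pow_ne_zero _ X_ne_zero) (G_ne _))

theorem core (T : Finset (Bool × Fib)) (d d' : Bool × Fib → ℕ) (U U' : PS)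
    (hU : ∀ A : ℝ, 0 < A → Small A U) (hU' : ∀ A : ℝ, 0 < A → Small A U') (hU'0 : U' ≠ 0)
    (j0 : Bool × Fib) (hj0 : j0 ∈ T) (hd : d j0 ≠ 0) (hd' : d' j0 = 0)
    (hmax : ∀ j ∈ T, j.2.P ≤ j0.2.P)
    (h : U * ∏ j ∈ T, Gs j ^ d j = U' * ∏ j ∈ T, Gs j ^ d' j) : False := by
  classical
  choose A hh hA0 hAs hAdec using G_dec
  set a : ℂ := sg j0.1 * aa j0.2 with ha
  have ha0 : a ≠ 0 := mul_ne_zero (sg_ne _) (aa_ne _)
  have hna : 2 * ‖a‖ = (j0.2.P : ℝ) / Real.pi ^ 2 := by
    rw [ha, norm_mul, norm_sg, one_mul, norm_aa]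
  have hA : 0 < 2 * ‖a‖ := by positivity
  set S := Sm (2 * ‖a‖) hA with hS
  set S' := adj S (psi (-a)) with hS'
  have htr : Tr S' (psi a) := tr_psi a ha0 hA
  have hpoly : ∀ Q : ℂ[X], (Q : PS) ∈ S := by
    intro Q
    refine Small.of_finite hA _ (Q.natDegree + 1) fun k hk => ?_
    rw [Polynomial.coeff_coe]
    exact Polynomial.coeff_eq_zero_of_natDegree_lt (by omega)
  set As : Bool × Fib → PS := fun j => rescale (sg j.1) (A j.2 : PS) with hAsdef
  set hs : Bool × Fib → PS := fun j => rescale (sg j.1) (hh j.2) with hhsdef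
  have hdecj : ∀ j, Gs j = As j * psi (sg j.1 * aa j.2) + hs j := by
    intro j
    rw [Gs, hAdec, RingHom.map_add, RingHom.map_mul, rescale_psi]
  have hAsS : ∀ j, As j ∈ S := fun j => rescale_small _ _ _ (hpoly _)
  have hAsc : ∀ j, constantCoeff (As j) ≠ 0 := by
    intro j
    rw [hAsdef]
    simp only
    rw [← coeff_zero_eq_constantCoeff_apply, coeff_rescale, pow_zero, one_mul,
      Polynomial.coeff_coe]
    exact hA0 _
  have hAr : ∀ j, rescale (sg j.1) (As j) = (A j.2 : PS) := fun j => rescale_rescale_sg _ _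
  have hGr : ∀ j, rescale (sg j.1) (Gs j) = (X : PS) ^ (j.2.S.card - 3) * G j.2 := fun j =>
    rescale_rescale_sg _ _
  set ρ : PS := -((As j0)⁻¹ * hs j0) with hρ
  have hinv : As j0 * (As j0)⁻¹ = 1 := PowerSeries.mul_inv_cancel _ (hAsc j0)
  have hex : ∀ j ∈ T, ∃ q : PS[X], CoefIn S' q ∧ q.eval (psi a) = Gs j ∧
      (j ≠ j0 → q.eval ρ ≠ 0) ∧ (j = j0 → q.eval ρ = 0) := by
    intro j hj
    rcases lt_or_eq_of_le (hmax j hj) with hP | hP
    · refine ⟨Polynomial.C (Gs j), CoefIn_C S' (le_adj S _ ?_), by simp, ?_, ?_⟩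
      · rw [hS, mem_Sm, Gs]
        refine rescale_small _ _ _ ?_
        refine (Sm _ hA).mul_mem (Subring.pow_mem _ (X_mem_Sm _ _) _) ?_
        rw [mem_Sm, hna]
        refine G_small _ _ ?_
        have : (j.2.P : ℝ) < (j0.2.P : ℝ) := by exact_mod_cast hP
        exact div_lt_div_of_pos_right this (by positivity)
      · intro _
        rw [Polynomial.eval_C]
        exact Gs_ne j
      · rintro rfl
        exact absurd hP (lt_irrefl _)
    · have haa : aa j.2 = aa j0.2 := by unfold aa; rw [hP]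
      have hhsS : hs j ∈ S := by
        rw [hS, mem_Sm, hna, ← hP]
        exact rescale_small _ _ _ (hAs _)
      by_cases he : j.1 = j0.1
      · have hja : sg j.1 * aa j.2 = a := by rw [he, haa]
        have hdj := hdecj j
        rw [hja] at hdj
        have hd0 := hdecj j0
        rw [← ha] at hd0
        refine ⟨Polynomial.C (As j) * Polynomial.X + Polynomial.C (hs j),
          CoefIn_lin S' (le_adj S _ (hAsS j)) (le_adj S _ hhsS), ?_, ?_, ?_⟩
        · rw [Polynomial.eval_add, Polynomial.eval_mul, Polynomial.eval_C, Polynomial.eval_X,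
            Polynomial.eval_C, hdj]
        · intro hne h2
          rw [Polynomial.eval_add, Polynomial.eval_mul, Polynomial.eval_C, Polynomial.eval_X,
            Polynomial.eval_C] at h2
          apply hne
          have h3 : As j0 * Gs j = As j * Gs j0 := by
            rw [hρ] at h2
            rw [hdj, hd0]
            linear_combination (As j0) * h2 + (As j * hs j0) * hinv
          have h5 : (A j0.2 : PS) * ((X : PS) ^ (j.2.S.card - 3) * G j.2)
              = (A j.2 : PS) * ((X : PS) ^ (j0.2.S.card - 3) * G j0.2) := by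
            have h6 := congrArg (rescale (sg j0.1)) h3
            have h9 : rescale (sg j0.1) (As j0 * Gs j)
                = (A j0.2 : PS) * ((X : PS) ^ (j.2.S.card - 3) * G j.2) := by
              rw [RingHom.map_mul, hAr j0, ← he, hGr j]
            have h10 : rescale (sg j0.1) (As j * Gs j0)
                = (A j.2 : PS) * ((X : PS) ^ (j0.2.S.card - 3) * G j0.2) := by
              rw [RingHom.map_mul, hGr j0, ← he, hAr j]
            rw [← h9, ← h10]
            exact h6
          exact Prod.ext he (G_eq j.2 j0.2 hP _ _ (hA0 _) (hA0 _) h5)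
        · rintro rfl
          rw [Polynomial.eval_add, Polynomial.eval_mul, Polynomial.eval_C, Polynomial.eval_X,
            Polynomial.eval_C, hρ]
          linear_combination (-(hs j)) * hinv
      · have hja : sg j.1 * aa j.2 = -a := by
          rw [ha, haa]
          have : sg j.1 = -sg j0.1 := by
            rcases j with ⟨e, t⟩
            rcases j0 with ⟨e0, t0⟩
            simp only at he ⊢
            cases e <;> cases e0 <;> simp [sg] at he ⊢
          rw [this]; ring
        refine ⟨Polynomial.C (Gs j), CoefIn_C S' ?_, by simp, ?_, ?_⟩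
        · rw [hdecj j, hja]
          exact S'.add_mem (S'.mul_mem (le_adj S _ (hAsS j)) (self_mem_adj S _))
            (le_adj S _ hhsS)
        · intro _
          rw [Polynomial.eval_C]
          exact Gs_ne j
        · rintro rfl
          exact absurd rfl he
  choose! q hq1 hq2 hq3 hq4 using hex
  set p : PS[X] := Polynomial.C U * ∏ j ∈ T, q j ^ d j
    - Polynomial.C U' * ∏ j ∈ T, q j ^ d' j with hp
  have hpS : CoefIn S' p := by
    refine CoefIn_sub S' (CoefIn_mul S' (CoefIn_C S' (le_adj S _ (hU _ hA)))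
      (CoefIn_prod S' _ _ fun i hi => CoefIn_pow S' (hq1 i hi) _))
      (CoefIn_mul S' (CoefIn_C S' (le_adj S _ (hU' _ hA)))
      (CoefIn_prod S' _ _ fun i hi => CoefIn_pow S' (hq1 i hi) _))
  have hp0 : p.eval (psi a) = 0 := by
    rw [hp, Polynomial.eval_sub, Polynomial.eval_mul, Polynomial.eval_mul, Polynomial.eval_C,
      Polynomial.eval_C, Polynomial.eval_prod, Polynomial.eval_prod]
    have e1 : ∏ j ∈ T, (q j ^ d j).eval (psi a) = ∏ j ∈ T, Gs j ^ d j :=
      Finset.prod_congr rfl fun j hj => by rw [Polynomial.eval_pow, hq2 j hj]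
    have e2 : ∏ j ∈ T, (q j ^ d' j).eval (psi a) = ∏ j ∈ T, Gs j ^ d' j :=
      Finset.prod_congr rfl fun j hj => by rw [Polynomial.eval_pow, hq2 j hj]
    rw [e1, e2, h, sub_self]
  have hpz := htr p hpS hp0
  have h1 : p.eval ρ = 0 := by rw [hpz, Polynomial.eval_zero]
  rw [hp, Polynomial.eval_sub, Polynomial.eval_mul, Polynomial.eval_mul, Polynomial.eval_C,
    Polynomial.eval_C, Polynomial.eval_prod, Polynomial.eval_prod] at h1
  have e1 : ∏ j ∈ T, (q j ^ d j).eval ρ = 0 := by
    refine Finset.prod_eq_zero hj0 ?_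
    rw [Polynomial.eval_pow, hq4 j0 hj0 rfl, zero_pow hd]
  rw [e1, mul_zero, zero_sub, neg_eq_zero] at h1
  refine (mul_ne_zero hU'0 (Finset.prod_ne_zero_iff.mpr fun j hj => ?_)) h1
  rw [Polynomial.eval_pow]
  by_cases hjj : j = j0
  · rw [hjj, hd', pow_zero]
    exact one_ne_zero
  · exact pow_ne_zero _ (hq3 j hj hjj)

/-- **Multiplicative independence** of the series `Gs j` modulo series of small growth. -/
theorem indep (n n' : Bool × Fib →₀ ℕ) (U U' : PS)
    (hU : ∀ A : ℝ, 0 < A → Small A U) (hU' : ∀ A : ℝ, 0 < A → Small A U')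
    (hU0 : U ≠ 0) (hU'0 : U' ≠ 0)
    (h : U * n.prod (fun j k => Gs j ^ k) = U' * n'.prod (fun j k => Gs j ^ k)) : n = n' := by
  classical
  by_contra hne
  set T := n.support ∪ n'.support with hT
  have e1 : n.prod (fun j k => Gs j ^ k) = ∏ j ∈ T, Gs j ^ n j :=
    Finsupp.prod_of_support_subset n Finset.subset_union_left _ (fun i _ => pow_zero _)
  have e2 : n'.prod (fun j k => Gs j ^ k) = ∏ j ∈ T, Gs j ^ n' j :=
    Finsupp.prod_of_support_subset n' Finset.subset_union_right _ (fun i _ => pow_zero _)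
  rw [e1, e2] at h
  -- cancel the common part
  have f1 : ∏ j ∈ T, Gs j ^ n j = (∏ j ∈ T, Gs j ^ (min (n j) (n' j)))
      * ∏ j ∈ T, Gs j ^ (n j - n' j) := by
    rw [← Finset.prod_mul_distrib]
    refine Finset.prod_congr rfl fun j _ => ?_
    rw [← pow_add]
    congr 1
    omega
  have f2 : ∏ j ∈ T, Gs j ^ n' j = (∏ j ∈ T, Gs j ^ (min (n j) (n' j)))
      * ∏ j ∈ T, Gs j ^ (n' j - n j) := by
    rw [← Finset.prod_mul_distrib]
    refine Finset.prod_congr rfl fun j _ => ?_
    rw [← pow_add]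
    congr 1
    omega
  have hD : (∏ j ∈ T, Gs j ^ (min (n j) (n' j))) ≠ 0 :=
    Finset.prod_ne_zero_iff.mpr fun j _ => pow_ne_zero _ (Gs_ne j)
  have h2 : U * ∏ j ∈ T, Gs j ^ (n j - n' j) = U' * ∏ j ∈ T, Gs j ^ (n' j - n j) := by
    refine mul_left_cancel₀ hD ?_
    rw [f1, f2] at h
    linear_combination h
  set T0 := T.filter (fun j => n j ≠ n' j) with hT0
  have g1 : ∏ j ∈ T, Gs j ^ (n j - n' j) = ∏ j ∈ T0, Gs j ^ (n j - n' j) := by
    symm
    refine Finset.prod_subset (Finset.filter_subset _ _) fun j hj hj2 => ?_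
    have : n j = n' j := by
      by_contra h3
      exact hj2 (Finset.mem_filter.mpr ⟨hj, h3⟩)
    rw [this, Nat.sub_self, pow_zero]
  have g2 : ∏ j ∈ T, Gs j ^ (n' j - n j) = ∏ j ∈ T0, Gs j ^ (n' j - n j) := by
    symm
    refine Finset.prod_subset (Finset.filter_subset _ _) fun j hj hj2 => ?_
    have : n j = n' j := by
      by_contra h3
      exact hj2 (Finset.mem_filter.mpr ⟨hj, h3⟩)
    rw [this, Nat.sub_self, pow_zero]
  rw [g1, g2] at h2
  have hT0ne : T0.Nonempty := by
    by_contra h3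
    rw [Finset.not_nonempty_iff_eq_empty] at h3
    apply hne
    ext j
    by_cases hj : j ∈ T
    · by_contra h4
      have : j ∈ T0 := Finset.mem_filter.mpr ⟨hj, h4⟩
      rw [h3] at this
      simp at this
    · rw [hT, Finset.mem_union, not_or, Finsupp.notMem_support_iff,
        Finsupp.notMem_support_iff] at hj
      rw [hj.1, hj.2]
  obtain ⟨j0, hj0, hmax⟩ := Finset.exists_max_image T0 (fun j => j.2.P) hT0ne
  have hj0n : n j0 ≠ n' j0 := (Finset.mem_filter.mp hj0).2
  rcases lt_or_gt_of_ne hj0n with hlt | hgt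
  · exact core T0 (fun j => n' j - n j) (fun j => n j - n' j) U' U hU' hU hU0 j0 hj0
      (by omega) (by omega) hmax h2.symm
  · exact core T0 (fun j => n j - n' j) (fun j => n' j - n j) U U' hU hU' hU'0 j0 hj0
      (by omega) (by omega) hmax h2

end Q57.LS
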