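import Mathlib
import Pool.Agent.Q57.LS.Indep
import Pool.Agent.Q57.LM.Final

/-! From the surgery formula to the independence of the Ohtsuki series, any number of fibres. -/

open PowerSeries

set_option linter.unusedSectionVars false

namespace Q57.LS

open scoped Nat
open Q57.LM (PS Small Sm C_mem_Sm X_mem_Sm mem_Sm sg rescale_small rescale_rescale_sg
  small_exp exp_ne coeff_one_mul')

theorem tau_const (t : Fib) (c : ℂ) (τ : PS)
    (h : (exp ℂ - 1) * τ = 2 * rescale c (exp ℂ) * G t) : constantCoeff τ = 1 := by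
  have h1 := congrArg (coeff 1) h
  have e2 : (2 : PS) * rescale c (exp ℂ) * G t = C (2 : ℂ) * (rescale c (exp ℂ) * G t) := by
    rw [← map_ofNat (C : ℂ →+* PS) 2]; ring
  rw [e2, coeff_C_mul, coeff_one_mul', coeff_one_mul', coeff_G_zero, coeff_G_one, map_sub, map_sub,
    coeff_one, coeff_one, coeff_exp, coeff_exp, coeff_rescale, coeff_exp] at h1
  rw [← coeff_zero_eq_constantCoeff_apply]
  simp at h1
  simpa using h1

/-- the two oriented series -/
noncomputable def tau (τ : Fib → PS) (j : Bool × Fib) : PS := rescale (sg j.1) (τ j.2)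

/-- **The main theorem** on the series given by the surgery formula. -/
theorem tau_indep (τ : Fib → PS) (c : Fib → ℂ)
    (h : ∀ t, (exp ℂ - 1) * τ t = 2 * rescale (c t) (exp ℂ) * G t)
    (n n' : Bool × Fib →₀ ℕ)
    (he : n.prod (fun j k => tau τ j ^ k) = n'.prod (fun j k => tau τ j ^ k)) : n = n' := by
  classical
  set E : Bool × Fib → PS := fun j => rescale (sg j.1) (X ^ (j.2.S.card - 3) * (exp ℂ - 1)) with hE
  set V : Bool × Fib → PS := fun j => rescale (sg j.1) (2 * rescale (c j.2) (exp ℂ)) with hV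
  have hrel : ∀ j, E j * tau τ j = V j * Gs j := by
    intro j
    rw [hE, hV, tau, Gs]
    simp only
    rw [← RingHom.map_mul, ← RingHom.map_mul]
    congr 1
    linear_combination ((X : PS) ^ (j.2.S.card - 3)) * h j.2
  have hE0 : ∀ j, E j ≠ 0 := by
    intro j
    refine rescale_ne _ _ (mul_ne_zero (pow_ne_zero _ X_ne_zero) ?_)
    intro h1
    have := congrArg (coeff 1) h1
    rw [map_sub, coeff_exp, coeff_one] at this
    simp at this
  have h2ne : (2 : PS) ≠ 0 := two_ne_zero
  have hV0 : ∀ j, V j ≠ 0 := fun j => rescale_ne _ _ (mul_ne_zero h2ne (exp_ne _))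
  have hES : ∀ (A : ℝ) (hA : 0 < A) (j), E j ∈ Sm A hA := by
    intro A hA j
    refine rescale_small _ _ _ ?_
    have h1 : exp ℂ ∈ Sm A hA := by
      have := small_exp 1 A hA
      rwa [rescale_one] at this
    exact (Sm A hA).mul_mem (Subring.pow_mem _ (X_mem_Sm _ _) _)
      ((Sm A hA).sub_mem h1 (Sm A hA).one_mem)
  have hVS : ∀ (A : ℝ) (hA : 0 < A) (j), V j ∈ Sm A hA := by
    intro A hA j
    refine rescale_small _ _ _ ?_
    have h1 : rescale (c j.2) (exp ℂ) ∈ Sm A hA := small_exp _ A hA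
    have h2 : (2 : PS) ∈ Sm A hA := by
      have := C_mem_Sm A hA 2
      rwa [map_ofNat] at this
    exact (Sm A hA).mul_mem h2 h1
  have hpE : ∀ m : Bool × Fib →₀ ℕ, m.prod (fun j k => E j ^ k) ≠ 0 := fun m =>
    Finset.prod_ne_zero_iff.mpr fun j _ => pow_ne_zero _ (hE0 j)
  have hpV : ∀ m : Bool × Fib →₀ ℕ, m.prod (fun j k => V j ^ k) ≠ 0 := fun m =>
    Finset.prod_ne_zero_iff.mpr fun j _ => pow_ne_zero _ (hV0 j)
  have hsE : ∀ (A : ℝ) (hA : 0 < A) (m : Bool × Fib →₀ ℕ),
      m.prod (fun j k => E j ^ k) ∈ Sm A hA := fun A hA m =>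
    Subring.prod_mem _ fun j _ => Subring.pow_mem _ (hES A hA j) _
  have hsV : ∀ (A : ℝ) (hA : 0 < A) (m : Bool × Fib →₀ ℕ),
      m.prod (fun j k => V j ^ k) ∈ Sm A hA := fun A hA m =>
    Subring.prod_mem _ fun j _ => Subring.pow_mem _ (hVS A hA j) _
  have hm : ∀ m : Bool × Fib →₀ ℕ, m.prod (fun j k => E j ^ k) * m.prod (fun j k => tau τ j ^ k)
      = m.prod (fun j k => V j ^ k) * m.prod (fun j k => Gs j ^ k) := by
    intro m
    rw [← Finsupp.prod_mul, ← Finsupp.prod_mul]
    refine Finsupp.prod_congr fun j _ => ?_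
    rw [← mul_pow, ← mul_pow, hrel]
  refine indep n n' (n'.prod (fun j k => E j ^ k) * n.prod (fun j k => V j ^ k))
    (n.prod (fun j k => E j ^ k) * n'.prod (fun j k => V j ^ k))
    (fun A hA => (Sm A hA).mul_mem (hsE A hA _) (hsV A hA _))
    (fun A hA => (Sm A hA).mul_mem (hsE A hA _) (hsV A hA _))
    (mul_ne_zero (hpE _) (hpV _)) (mul_ne_zero (hpE _) (hpV _)) ?_
  calc n'.prod (fun j k => E j ^ k) * n.prod (fun j k => V j ^ k) * n.prod (fun j k => Gs j ^ k)
      = n'.prod (fun j k => E j ^ k) * (n.prod (fun j k => V j ^ k)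
          * n.prod (fun j k => Gs j ^ k)) := by ring
    _ = n'.prod (fun j k => E j ^ k) * (n.prod (fun j k => E j ^ k)
          * n.prod (fun j k => tau τ j ^ k)) := by rw [hm]
    _ = n.prod (fun j k => E j ^ k) * (n'.prod (fun j k => E j ^ k)
          * n'.prod (fun j k => tau τ j ^ k)) := by rw [he]; ring
    _ = n.prod (fun j k => E j ^ k) * (n'.prod (fun j k => V j ^ k)
          * n'.prod (fun j k => Gs j ^ k)) := by rw [hm]
    _ = _ := by ring

end Q57.LS
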